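import Mathlib

/-! Query sequences on a directed acyclic graph: a counting bound and a doubling bound. -/

namespace Pool.Agent.MP_47ff19_lc.H74

open Finset

variable {Q N K : Type}

/-- the nodes queried by the states of a list -/
def Qd (nd : Q → Option N) (J : List Q) : Set N := {v | ∃ q ∈ J, nd q = some v}

/-- the children of nodes of `M` that are not in `M` -/
def Bd (Par : N → N → Prop) (M : Set N) : Set N := {c | c ∉ M ∧ ∃ v ∈ M, Par v c}

lemma card_colourings {B P : Type} [Fintype B] [Fintype P] [DecidableEq B] [DecidableEq P]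
    (e : B ↪ P) : Fintype.card B ^ (Fintype.card P - Fintype.card B) ≤
      (univ.filter fun χ : P → B => ∀ b, χ (e b) = b).card := by
  classical
  have h1 : Fintype.card B ^ (Fintype.card P - Fintype.card B) =
      (univ : Finset ({x // x ∉ Set.range e} → B)).card := by
    simp only [card_univ, Fintype.card_fun, Fintype.card_subtype_compl]
    rw [Set.card_range_of_injective e.injective]
  rw [h1]
  refine card_le_card_of_injOn
    (fun f x => if h : x ∈ Set.range e then h.choose else f ⟨x, h⟩) (fun f _ => ?_) ?_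
  · simp only [coe_filter, mem_univ, true_and, Set.mem_setOf_eq]
    intro b
    have h : e b ∈ Set.range e := ⟨b, rfl⟩
    rw [dif_pos h]; exact e.injective h.choose_spec
  · intro f _ f' _ h
    funext x
    have := congrFun h x.1
    simpa only [dif_neg x.2] using this

lemma count_bound [Fintype Q] [Fintype N] [Fintype K] (hNK : Fintype.card N ≤ Fintype.card K)
    (nd : (N ↪ K) → Q → Option N) (Par : N → N → Prop) (path : (N ↪ K) → List Q) (j : ℕ)
    (hj : 0 < j)
    (mix : ∀ φ φ' : N ↪ K, ∀ s e J, J <:+: path φ' → J.head? = some s →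
      J.getLast? = some e → s ∈ path φ → e ∈ path φ → (∀ v ∈ Qd (nd φ') J, φ v = φ' v) →
      (∀ u u', φ u = φ' u' → u = u') → ∀ c ∈ Bd Par (Qd (nd φ') J), φ c = φ' c)
    (big : ∀ φ, ∃ J, J <:+: path φ ∧ j ≤ (Bd Par (Qd (nd φ) J)).ncard) :
    (Fintype.card K - Fintype.card N) ^ j ≤
      Fintype.card Q ^ 2 * (Fintype.card N).choose j * j ^ j := by
  classical
  have h1 : ∀ φ, ∃ p : Q × Q × Finset N, ∃ J, J <:+: path φ ∧ J.head? = some p.1 ∧
      J.getLast? = some p.2.1 ∧ p.2.2.card = j ∧ (p.2.2 : Set N) ⊆ Bd Par (Qd (nd φ) J) := by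
    intro φ
    obtain ⟨J, h1, h2⟩ := big φ
    obtain ⟨B, h3, h4⟩ := Set.exists_subset_card_eq h2
    have hne : J ≠ [] := by
      rintro rfl
      have : Bd Par (Qd (nd φ) ([] : List Q)) = ∅ := by ext; simp [Bd, Qd]
      rw [this] at h2; simp at h2; omega
    refine ⟨(J.head hne, J.getLast hne, B.toFinset), J, h1, List.head?_eq_some_head hne,
      List.getLast?_eq_getLast_of_ne_nil hne, ?_, by simpa using h3⟩
    rw [← h4, Set.ncard_eq_toFinset_card']
  choose f J f1 f2 f3 f4 f5 using h1
  obtain ⟨φ0⟩ := Function.Embedding.nonempty_of_card_le hNK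
  have hjN : j ≤ Fintype.card N := by rw [← f4 φ0]; exact card_le_univ _
  have key := card_le_mul_card_image_of_maps_to (f := f) (s := univ)
    (t := univ ×ˢ univ ×ˢ powersetCard j univ) (fun val _ => by simp [f4])
    ((Fintype.card K).descFactorial (Fintype.card N - j) * j ^ j) (fun p hp => by
      have hp' : p.2.2.card = j := by simpa using hp
      have dc := card_mul_le_card_mul (s := univ.filter fun φ => f φ = p)
        (t := (univ : Finset (({v // v ∉ p.2.2} ↪ K) × (K → p.2.2))))
        (fun φ t => (∀ v, t.1 v = φ v.1) ∧ ∀ b : p.2.2, t.2 (φ b.1) = b)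
        (m := j ^ (Fintype.card K - j)) (n := 1) (fun φ _ => by
          have k := card_colourings ((Function.Embedding.subtype (· ∈ p.2.2)).trans φ)
          rw [Fintype.card_coe, hp'] at k
          refine k.trans (card_le_card_of_injOn
            (fun χ => ((Function.Embedding.subtype (· ∉ p.2.2)).trans φ, χ)) (fun χ h => ?_)
            fun _ _ _ _ h => congrArg Prod.snd h)
          simpa [bipartiteAbove] using h) (fun t _ => by
          refine card_le_one.2 fun φ h1 φ' h2 => ?_
          simp only [bipartiteBelow, mem_filter, mem_univ, true_and] at h1 h2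
          obtain ⟨e1, a1, a2⟩ := h1
          obtain ⟨e2, b1, b2⟩ := h2
          have out : ∀ v, v ∉ p.2.2 → φ v = φ' v := fun v hv =>
            (a1 ⟨v, hv⟩).symm.trans (b1 ⟨v, hv⟩)
          have hB := f5 φ'
          rw [e2] at hB
          have m := mix φ φ' p.1 p.2.1 (J φ') (f1 _) (e2 ▸ f2 _) (e2 ▸ f3 _)
            ((f1 φ).subset (List.mem_of_mem_head? (e1 ▸ f2 φ)))
            ((f1 φ).subset (List.mem_of_mem_getLast? (e1 ▸ f3 φ)))
            (fun v hv => out v fun h => (hB h).1 hv) (fun u u' h => by
              by_cases k1 : u ∈ p.2.2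
              · by_cases k2 : u' ∈ p.2.2
                · have := a2 ⟨u, k1⟩
                  rw [h, b2 ⟨u', k2⟩] at this
                  exact (congrArg Subtype.val this).symm
                · exact φ.injective (h.trans (out u' k2).symm)
              · exact φ'.injective ((out u k1).symm.trans h))
          ext c
          by_cases hc : c ∈ p.2.2
          · exact m c (hB hc)
          · exact out c hc)
      simp only [card_univ, Fintype.card_prod, Fintype.card_embedding_eq, Fintype.card_fun,
        Fintype.card_subtype_compl, Fintype.card_coe, hp', mul_one] at dc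
      have e : j ^ Fintype.card K = j ^ j * j ^ (Fintype.card K - j) := by
        rw [← pow_add]; congr 1; omega
      rw [e, ← mul_assoc] at dc
      exact Nat.le_of_mul_le_mul_right dc (pow_pos hj _))
  simp only [card_univ, Fintype.card_embedding_eq, card_product, card_powersetCard] at key
  rw [← Nat.descFactorial_mul_descFactorial (Nat.sub_le (Fintype.card N) j),
    Nat.sub_sub_self hjN, mul_comm, mul_assoc] at key
  have k1 := Nat.le_of_mul_le_mul_left key (Nat.descFactorial_pos.2 (by omega))
  refine le_trans ?_ (k1.trans (le_of_eq (by ring)))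
  refine le_trans (Nat.pow_le_pow_left (by omega) _) (Nat.pow_sub_le_descFactorial _ _)

lemma split_suffix (f : List Q → ℕ) (h0 : f [] = 0) (hs : ∀ q J, f (q :: J) ≤ f J + 1) (r : ℕ)
    (J : List Q) (h : r ≤ f J) : ∃ J1 J2, J = J1 ++ J2 ∧ f J2 = r := by
  induction J with
  | nil => exact ⟨[], [], rfl, by omega⟩
  | cons q J ih =>
    by_cases k : r ≤ f J
    · obtain ⟨J1, J2, rfl, e⟩ := ih k
      exact ⟨q :: J1, J2, rfl, e⟩
    · exact ⟨[], q :: J, rfl, by have := hs q J; omega⟩

/-! ### stacks of butterflies -/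

/-- change the coordinate `i` -/
def flip {L : ℕ} (i : ℕ) (x : Fin L → Bool) : Fin L → Bool := fun a => if a.val = i then !x a else x a

/-- the children of `(l, x)` are `(l + 1, x)` and `(l + 1, x` with coordinate `l mod L` changed`)` -/
def BPar (H L : ℕ) (v c : Fin (H + 1) × (Fin L → Bool)) : Prop :=
  c.1.val = v.1.val + 1 ∧ (c.2 = v.2 ∨ c.2 = flip (v.1.val % L) v.2)

def lv (H l : ℕ) : Fin (H + 1) := ⟨min l H, by omega⟩

def mixv {L : ℕ} (j : ℕ) (x y : Fin L → Bool) : Fin L → Bool := fun a => if a.val < j then y a else x a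

/-- the points of level `l` in `M` -/
noncomputable def lev {H L : ℕ} (M : Set (Fin (H + 1) × (Fin L → Bool))) (l : ℕ) :
    Finset (Fin L → Bool) := by
  classical exact univ.filter fun x => (lv H l, x) ∈ M

lemma mem_lev {H L : ℕ} {M : Set (Fin (H + 1) × (Fin L → Bool))} {l : ℕ} {x : Fin L → Bool} :
    x ∈ lev M l ↔ (lv H l, x) ∈ M := by simp [lev]

lemma grate {H L : ℕ} (M : Set (Fin (H + 1) × (Fin L → Bool))) (b : ℕ) (hb : (b + 1) * L ≤ H) :
    (lev M (b * L)).card * (2 ^ L - (lev M ((b + 1) * L)).card) ≤
      (Bd (BPar H L) M).ncard * 2 ^ L := by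
  classical
  have hx : ∀ p : (Fin L → Bool) × (Fin L → Bool), p ∈ lev M (b * L) ×ˢ (lev M ((b + 1) * L))ᶜ →
      ∃ j, j ≤ L ∧ (lv H (b * L + j), mixv j p.1 p.2) ∈ Bd (BPar H L) M := by
    rintro ⟨x, y⟩ hp
    simp only [mem_product, mem_compl, mem_lev] at hp
    by_contra hn
    push Not at hn
    have : ∀ j, j ≤ L → (lv H (b * L + j), mixv j x y) ∈ M := by
      intro j
      induction j with
      | zero => intro _; have : mixv 0 x y = x := by funext a; simp [mixv]
                rw [this]; exact hp.1
      | succ j ih =>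
        intro hj
        by_contra k
        refine hn (j + 1) hj ⟨k, _, ih (by omega), ?_, ?_⟩
        · have : (b + 1) * L = b * L + L := by ring
          simp only [lv]; omega
        · have e : (lv H (b * L + j)).val % L = j := by
            have : (b + 1) * L = b * L + L := by ring
            have e1 : (lv H (b * L + j)).val = b * L + j := by simp only [lv]; omega
            rw [e1, Nat.mul_add_mod_self_right]; exact Nat.mod_eq_of_lt (by omega)
          simp only [e]
          by_cases k2 : x ⟨j, by omega⟩ = y ⟨j, by omega⟩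
          · left; funext a
            simp only [mixv]
            by_cases k3 : a.val = j
            · subst k3; simpa using k2.symm
            · have : a.val < j + 1 ↔ a.val < j := by omega
              simp [this]
          · right; funext a
            simp only [mixv, flip]
            by_cases k3 : a.val = j
            · subst k3
              simp only [Nat.lt_add_one, if_true, lt_irrefl, if_false]
              have k4 : ¬ x a = y a := k2
              revert k4; cases x a <;> cases y a <;> simp
            · have : a.val < j + 1 ↔ a.val < j := by omega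
              simp [this, k3]
    have e : mixv L x y = y := by funext a; simp [mixv]
    have := this L le_rfl
    rw [e, ← add_one_mul] at this
    exact hp.2 this
  choose! jj j1 j2 using hx
  have key := card_le_mul_card_image_of_maps_to
    (f := fun p => (lv H (b * L + jj p), mixv (jj p) p.1 p.2))
    (s := lev M (b * L) ×ˢ (lev M ((b + 1) * L))ᶜ) (t := (Bd (BPar H L) M).toFinset)
    (fun p hp => by simpa using j2 p hp) (2 ^ L) (fun β _ => by
      have : 2 ^ L = (univ : Finset (Fin L → Bool)).card := by simp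
      rw [this]
      refine card_le_card_of_injOn (fun p => mixv (jj p) p.2 p.1) (fun _ _ => mem_univ _) ?_
      intro p h1 p' h2 h3
      simp only [coe_filter, Set.mem_setOf_eq] at h1 h2
      have e := h1.2.trans h2.2.symm
      have e1 : jj p = jj p' := by
        have := congrArg (fun t => t.1.val) e
        have k1 := j1 p h1.1
        have k2 := j1 p' h2.1
        have : (b + 1) * L = b * L + L := by ring
        simp only [lv] at *; omega
      have e2 := congrArg Prod.snd e
      simp only [← e1] at e2 h3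
      ext a
      · have k1 := congrFun e2 a
        have k2 := congrFun h3 a
        simp only [mixv] at k1 k2
        split_ifs at k1 k2 <;> assumption
      · have k1 := congrFun e2 a
        have k2 := congrFun h3 a
        simp only [mixv] at k1 k2
        split_ifs at k1 k2 <;> assumption)
  rw [card_product, card_compl, ← Set.ncard_eq_toFinset_card'] at key
  simpa [mul_comm] using key

lemma double {H L r : ℕ} (hr : 2 ^ L = 8 * r) (nd : Q → Option (Fin (H + 1) × (Fin L → Bool)))
    (t : ℕ) : ∀ (b : ℕ) (J : List Q), (b + t) * L ≤ H →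
      (∀ J', J' <:+: J → (Bd (BPar H L) (Qd nd J')).ncard ≤ r) →
      2 * r ≤ (lev (Qd nd J) (b * L)).card → 2 ^ t ≤ J.length := by
  classical
  have hr0 : 0 < r := by have := Nat.two_pow_pos L; omega
  induction t with
  | zero =>
    intro b J _ _ h
    cases J with
    | nil =>
      have : lev (Qd nd ([] : List Q)) (b * L) = ∅ := by ext; simp [mem_lev, Qd]
      rw [this] at h; simp at h; omega
    | cons q J => simp
  | succ t ih =>
    intro b J h1 h2 h3
    have g := grate (Qd nd J) b (le_trans (Nat.mul_le_mul_right _ (by omega)) h1)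
    have h4 : 4 * r ≤ (lev (Qd nd J) ((b + 1) * L)).card := by
      have k1 := h2 J List.infix_rfl
      have k2 : 2 * r * (2 ^ L - (lev (Qd nd J) ((b + 1) * L)).card) ≤ 2 * r * (4 * r) :=
        calc _ ≤ _ := Nat.mul_le_mul_right _ h3
          _ ≤ _ := g
          _ ≤ r * 2 ^ L := Nat.mul_le_mul_right _ k1
          _ = _ := by rw [hr]; ring
      have := Nat.le_of_mul_le_mul_left k2 (by omega)
      omega
    have un : ∀ J1 J2 : List Q, lev (Qd nd (J1 ++ J2)) ((b + 1) * L) =
        lev (Qd nd J1) ((b + 1) * L) ∪ lev (Qd nd J2) ((b + 1) * L) := by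
      intro J1 J2; ext x; simp only [mem_lev, Qd, mem_union, Set.mem_setOf_eq, List.mem_append]
      constructor
      · rintro ⟨q, h | h, k⟩; exacts [Or.inl ⟨q, h, k⟩, Or.inr ⟨q, h, k⟩]
      · rintro (⟨q, h, k⟩ | ⟨q, h, k⟩); exacts [⟨q, Or.inl h, k⟩, ⟨q, Or.inr h, k⟩]
    obtain ⟨J1, J2, rfl, e⟩ := split_suffix (fun J => (lev (Qd nd J) ((b + 1) * L)).card)
      (by simp only [card_eq_zero]; ext; simp [mem_lev, Qd])
      (fun q J => by
        have k := un [q] J
        have k2 : (lev (Qd nd [q]) ((b + 1) * L)).card ≤ 1 := by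
          refine card_le_one.2 fun x hx y hy => ?_
          simp only [mem_lev, Qd, Set.mem_setOf_eq, List.mem_singleton, exists_eq_left] at hx hy
          simpa using hx.symm.trans hy
        simp only [List.singleton_append] at k
        simp only [k]
        have := card_union_le (lev (Qd nd [q]) ((b + 1) * L)) (lev (Qd nd J) ((b + 1) * L))
        omega) (2 * r) J (by omega)
    have e' : (lev (Qd nd J2) ((b + 1) * L)).card = 2 * r := e
    rw [un] at h4
    have := card_union_le (lev (Qd nd J1) ((b + 1) * L)) (lev (Qd nd J2) ((b + 1) * L))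
    have hb : (b + 1 + t) * L ≤ H := by rwa [add_assoc, add_comm 1 t]
    have i1 := ih (b + 1) J1 hb (fun J' h => h2 J' (h.trans (List.prefix_append _ _).isInfix))
      (by omega)
    have i2 := ih (b + 1) J2 hb (fun J' h => h2 J' (h.trans (List.suffix_append _ _).isInfix))
      (by omega)
    rw [List.length_append, pow_succ]; omega

/-- the abstract lower bound -/
theorem core [Fintype Q] [Fintype K] {L r : ℕ} (hr : 2 ^ L = 8 * r)
    (hK : Fintype.card K = 13 * (((r + 1) * L + 1) * 2 ^ L))
    (nd : (Fin ((r + 1) * L + 1) × (Fin L → Bool) ↪ K) → Q →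
      Option (Fin ((r + 1) * L + 1) × (Fin L → Bool)))
    (path : (Fin ((r + 1) * L + 1) × (Fin L → Bool) ↪ K) → List Q) (nodup : ∀ φ, (path φ).Nodup)
    (root : ∀ φ, ∃ x, (0, x) ∈ Qd (nd φ) (path φ))
    (closed : ∀ φ, Bd (BPar _ L) (Qd (nd φ) (path φ)) = ∅)
    (mix : ∀ φ φ', ∀ s e J, J <:+: path φ' → J.head? = some s →
      J.getLast? = some e → s ∈ path φ → e ∈ path φ → (∀ v ∈ Qd (nd φ') J, φ v = φ' v) →
      (∀ u u', φ u = φ' u' → u = u') → ∀ c ∈ Bd (BPar _ L) (Qd (nd φ') J), φ c = φ' c) :
    2 ^ r ≤ Fintype.card Q := by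
  have h2 := Nat.two_pow_pos L
  by_cases big : ∀ φ, ∃ J, J <:+: path φ ∧ r + 1 ≤ (Bd (BPar _ L) (Qd (nd φ) J)).ncard
  · have hn : Fintype.card (Fin ((r + 1) * L + 1) × (Fin L → Bool)) = ((r + 1) * L + 1) * 2 ^ L := by
      simp
    have h := count_bound (by rw [hn, hK]; omega) nd _ path (r + 1) (by omega) mix big
    rw [hn, hK] at h
    set n := ((r + 1) * L + 1) * 2 ^ L with hn
    have h4 : (r + 1) ^ (r + 1) ≤ 3 ^ (r + 1) * (r + 1).factorial := by
      have k1 := Real.pow_div_factorial_le_exp ((r + 1 : ℕ) : ℝ) (by positivity) (r + 1)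
      rw [div_le_iff₀ (by positivity), ← Real.exp_one_pow] at k1
      have k2 : Real.exp 1 ^ (r + 1) ≤ 3 ^ (r + 1) :=
        pow_le_pow_left₀ (Real.exp_pos 1).le (by linarith [Real.exp_one_lt_d9]) _
      have k3 : (((r + 1 : ℕ) : ℝ)) ^ (r + 1) ≤ 3 ^ (r + 1) * ((r + 1).factorial : ℝ) :=
        k1.trans (mul_le_mul_of_nonneg_right k2 (by positivity))
      exact_mod_cast k3
    have h5 : (r + 1).factorial * n.choose (r + 1) ≤ n ^ (r + 1) := by
      rw [← Nat.descFactorial_eq_factorial_mul_choose]; exact Nat.descFactorial_le_pow _ _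
    have h6 : n.choose (r + 1) * (r + 1) ^ (r + 1) ≤ (3 * n) ^ (r + 1) :=
      calc _ ≤ n.choose (r + 1) * (3 ^ (r + 1) * (r + 1).factorial) := Nat.mul_le_mul_left _ h4
        _ = 3 ^ (r + 1) * ((r + 1).factorial * n.choose (r + 1)) := by ring
        _ ≤ 3 ^ (r + 1) * n ^ (r + 1) := Nat.mul_le_mul_left _ h5
        _ = _ := (mul_pow _ _ _).symm
    have h7 : (2 ^ (r + 1)) ^ 2 * (3 * n) ^ (r + 1) ≤ Fintype.card Q ^ 2 * (3 * n) ^ (r + 1) :=
      calc _ = (13 * n - n) ^ (r + 1) := by
            rw [← pow_mul, mul_comm (r + 1) 2, pow_mul, ← mul_pow]; congr 1; omega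
        _ ≤ _ := h
        _ ≤ _ := by rw [mul_assoc]; exact Nat.mul_le_mul_left _ h6
    have h8 := Nat.le_of_mul_le_mul_right h7 (by positivity)
    have h9 := (Nat.pow_le_pow_iff_left (by norm_num)).1 h8
    rw [pow_succ] at h9; omega
  · push Not at big
    obtain ⟨φ, h⟩ := big
    have g := grate (Qd (nd φ) (path φ)) 0 (Nat.mul_le_mul_right L (by omega))
    rw [closed φ] at g
    obtain ⟨x, hx⟩ := root φ
    have k1 : 0 < (lev (Qd (nd φ) (path φ)) (0 * L)).card :=
      card_pos.2 ⟨x, mem_lev.2 (by simpa [lv] using hx)⟩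
    simp only [Set.ncard_empty, zero_mul, nonpos_iff_eq_zero, mul_eq_zero] at g k1
    have := double hr (nd φ) r 1 (path φ) (by rw [add_comm])
      (fun J hJ => by have := h J hJ; omega) (by simp only [zero_add] at g; omega)
    exact this.trans (nodup φ).length_le_card

end Pool.Agent.MP_47ff19_lc.H74
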