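import Mathlib

/-!
The problem GEN and nondeterministic branching programs for it, with the semantic incrementality
condition of Gal, Koucky and McKenzie. The elements `1, ..., n` are written `0, ..., n - 1`.
-/

namespace Pool.Agent.MP_47ff19_lc.H74

/-- The elements generated from the first element by the binary operation `g`. -/
inductive Gen {m : ℕ} (g : Fin (m + 1) × Fin (m + 1) → Fin (m + 1)) : Fin (m + 1) → Prop
  | one : Gen g 0
  | mul {x y : Fin (m + 1)} : Gen g x → Gen g y → Gen g (g (x, y))

/-- A nondeterministic `n`-way branching program whose variables are the entries of a binary operation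
on `Fin n`: `size` inner states, each labelled by a variable, one accepting sink (`none`), a set of
start states, and edges that leave inner states and are labelled by elements of `Fin n`. -/
structure GenBP (n : ℕ) where
  size : ℕ
  start : Option (Fin size) → Prop
  label : Fin size → Fin n × Fin n
  edge : Fin size → Fin n → Option (Fin size) → Prop

/-- `B.Run g s qs`: from the state `s` the input `g` can follow edges through the inner states `qs`,
in this order, to the accepting sink. -/
inductive GenBP.Run {n : ℕ} (B : GenBP n) (g : Fin n × Fin n → Fin n) :
    Option (Fin B.size) → List (Fin B.size) → Prop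
  | nil : GenBP.Run B g none []
  | cons {q : Fin B.size} {t : Option (Fin B.size)} {qs : List (Fin B.size)} :
      B.edge q (g (B.label q)) t → GenBP.Run B g t qs → GenBP.Run B g (some q) (q :: qs)

/-- `qs` is the list of inner states of an accepting computation on the input `g`. -/
def GenBP.Acc {n : ℕ} (B : GenBP n) (g : Fin n × Fin n → Fin n) (qs : List (Fin B.size)) : Prop :=
  ∃ s, B.start s ∧ B.Run g s qs

/-- The program accepts exactly the operations that generate the last element. -/
def GenBP.Solves {m : ℕ} (B : GenBP (m + 1)) : Prop :=
  ∀ g, (∃ qs, B.Acc g qs) ↔ Gen g (Fin.last m)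

/-- Semantic incrementality: along every accepting computation, both arguments of every query are the
first element or the label of an earlier edge of that computation. -/
def GenBP.Incremental {m : ℕ} (B : GenBP (m + 1)) : Prop :=
  ∀ g pre q post, B.Acc g (pre ++ q :: post) → ∀ z, z = (B.label q).1 ∨ z = (B.label q).2 →
    z = 0 ∨ ∃ p ∈ pre, g (B.label p) = z

/-- Along every accepting computation, both arguments of every query are generated by the input. -/
def GenBP.Thrifty {m : ℕ} (B : GenBP (m + 1)) : Prop :=
  ∀ g qs, B.Acc g qs → ∀ q ∈ qs, Gen g (B.label q).1 ∧ Gen g (B.label q).2

end Pool.Agent.MP_47ff19_lc.H74
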