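import Pool.Agent.MP_47ff19_lc.H74.Core
import Pool.Agent.MP_47ff19_lc.H74.GenDefs

/-! The lower bound for GEN. -/

namespace Pool.Agent.MP_47ff19_lc.H74

section runs

variable {n : ℕ} {B : GenBP n} {g g' : Fin n × Fin n → Fin n}

lemma GenBP.Run.suffix {P R : List (Fin B.size)} {q : Fin B.size} :
    ∀ {s}, B.Run g s (P ++ q :: R) → B.Run g (some q) (q :: R) := by
  induction P with
  | nil => intro s h; cases h with | cons h1 h2 => exact GenBP.Run.cons h1 h2
  | cons p P ih => intro s h; cases h with | cons h1 h2 => exact ih h2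

lemma GenBP.Run.splice {P R R' : List (Fin B.size)} {q : Fin B.size} (h' : B.Run g (some q) R') :
    ∀ {s}, B.Run g' s (P ++ q :: R) → (∀ p ∈ P, g (B.label p) = g' (B.label p)) →
      B.Run g s (P ++ R') := by
  induction P with
  | nil => intro s h _; cases h with | cons h1 h2 => exact h'
  | cons p P ih =>
    intro s h e
    cases h with
    | cons h1 h2 =>
      exact GenBP.Run.cons (by rw [e p (by simp)]; exact h1) (ih h2 fun x hx => e x (by simp [hx]))

lemma GenBP.Run.congr {R : List (Fin B.size)} {s : Option (Fin B.size)} (h : B.Run g' s R)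
    (e : ∀ p ∈ R, g (B.label p) = g' (B.label p)) : B.Run g s R := by
  induction h with
  | nil => exact GenBP.Run.nil
  | cons h1 _ ih =>
    exact GenBP.Run.cons (by rw [e _ (by simp)]; exact h1) (ih fun x hx => e x (by simp [hx]))

lemma not_nodup_split {α : Type} {L : List α} (h : ¬ L.Nodup) :
    ∃ P c M R, L = P ++ c :: (M ++ c :: R) := by
  induction L with
  | nil => simp at h
  | cons a T ih =>
    by_cases ha : a ∈ T
    · obtain ⟨M, R, rfl⟩ := List.append_of_mem ha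
      exact ⟨[], a, M, R, by simp⟩
    · obtain ⟨P, c, M, R, rfl⟩ := ih (fun hT => h (List.nodup_cons.2 ⟨ha, hT⟩))
      exact ⟨a :: P, c, M, R, by simp⟩

lemma exists_nodup_acc (h : ∃ qs, B.Acc g qs) : ∃ qs, B.Acc g qs ∧ qs.Nodup := by
  classical
  have hex : ∃ l, ∃ qs, B.Acc g qs ∧ qs.length = l := by
    obtain ⟨qs, h⟩ := h; exact ⟨_, qs, h, rfl⟩
  obtain ⟨qs, ⟨s, h1, h2⟩, h3⟩ := Nat.find_spec hex
  refine ⟨qs, ⟨s, h1, h2⟩, ?_⟩
  by_contra hn
  obtain ⟨P, c, M, R, rfl⟩ := not_nodup_split hn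
  have k : B.Run g (some c) (c :: R) := GenBP.Run.suffix (P := P ++ c :: M) (by simpa using h2)
  have := Nat.find_min' hex ⟨_, ⟨s, h1, k.splice h2 fun _ _ => rfl⟩, rfl⟩
  rw [← h3] at this
  simp at this
  omega

lemma acc_mix {P P' J : List (Fin B.size)} {s e : Fin B.size} (h : B.Acc g P) (h' : B.Acc g' P')
    (hJ : J <:+: P') (h1 : J.head? = some s) (h2 : J.getLast? = some e) (hs : s ∈ P) (he : e ∈ P)
    (hg : ∀ p ∈ J, g (B.label p) = g' (B.label p)) : ∃ R, B.Acc g R ∧ ∀ q ∈ J, q ∈ R := by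
  obtain ⟨s0, a1, a2⟩ := h
  obtain ⟨s1, -, b2⟩ := h'
  obtain ⟨P1, P2, e1⟩ := List.append_of_mem hs
  obtain ⟨P3, P4, e2⟩ := List.append_of_mem he
  obtain ⟨A, C, rfl⟩ := hJ
  obtain ⟨J0, rfl⟩ := List.getLast?_eq_some_iff.1 h2
  obtain ⟨T, e3⟩ : ∃ T, J0 ++ e :: C = s :: T := by
    cases J0 with
    | nil => simp at h1; exact ⟨C, by simp [h1]⟩
    | cons p J0 => simp at h1; exact ⟨J0 ++ e :: C, by simp [h1]⟩
  have r1 : B.Run g' (some s) (J0 ++ e :: C) := by
    rw [e3]; refine GenBP.Run.suffix (P := A) (s := s1) ?_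
    rw [← e3]; simpa using b2
  have r2 : B.Run g (some e) (e :: P4) := GenBP.Run.suffix (e2 ▸ a2)
  have r3 := r2.splice r1 fun p hp => hg p (by simp [hp])
  refine ⟨_, ⟨s0, a1, r3.splice (e1 ▸ a2) fun _ _ => rfl⟩, fun q hq => ?_⟩
  simp only [List.mem_append, List.mem_cons, List.not_mem_nil, or_false] at hq ⊢
  tauto

end runs

lemma GenBP.Incremental.thrifty {m : ℕ} {B : GenBP (m + 1)} (h : B.Incremental) : B.Thrifty := by
  intro g qs ha
  have key : ∀ l pre q post, qs = pre ++ q :: post → pre.length = l →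
      Gen g (B.label q).1 ∧ Gen g (B.label q).2 := by
    intro l
    induction l using Nat.strong_induction_on with
    | _ l ih =>
      intro pre q post e hl
      have one : ∀ z, z = (B.label q).1 ∨ z = (B.label q).2 → Gen g z := by
        intro z hz
        rcases h g pre q post (e ▸ ha) z hz with rfl | ⟨p, hp, rfl⟩
        · exact Gen.one
        · obtain ⟨P1, P2, rfl⟩ := List.append_of_mem hp
          have := ih P1.length (by rw [← hl]; simp) P1 p (P2 ++ q :: post) (by simp [e]) rfl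
          exact Gen.mul this.1 this.2
      exact ⟨one _ (Or.inl rfl), one _ (Or.inr rfl)⟩
  intro q hq
  obtain ⟨P, R, e⟩ := List.append_of_mem hq
  exact key _ P q R e rfl

/-! ### the hard instances -/

abbrev Nd (H L : ℕ) := Fin (H + 1) × (Fin L → Bool)

abbrev El (L k : ℕ) := Unit ⊕ Fin (2 ^ L + 1) ⊕ Fin k

variable {H L k : ℕ} {φ φ' : Nd H L ↪ Fin k} {p : El L k × El L k} {v v' c : Nd H L}

def tgt : El L k := Sum.inl ()
def ch (i : Fin (2 ^ L + 1)) : El L k := Sum.inr (Sum.inl i)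
def el (a : Fin k) : El L k := Sum.inr (Sum.inr a)

noncomputable def idx (x : Fin L → Bool) : Fin (2 ^ L) :=
  Fintype.equivFinOfCardEq (by simp) x

def Rel (φ : Nd H L ↪ Fin k) (p : El L k × El L k) (v : Nd H L) : Prop :=
  (v.1.val < H ∧ p.1 = el (φ (lv H (v.1.val + 1), v.2)) ∧
    p.2 = el (φ (lv H (v.1.val + 1), flip (v.1.val % L) v.2))) ∨
  (v.1.val = H ∧ p = (ch 0, ch (idx v.2).succ))

lemma Rel.uniq (h : Rel φ p v) (h' : Rel φ p v') : v = v' := by
  rcases h with ⟨h1, a, -⟩ | ⟨h1, rfl⟩ <;> rcases h' with ⟨h2, e, -⟩ | ⟨h2, e⟩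
  · rw [a] at e
    simp only [el, lv, Prod.mk.injEq, Sum.inr.injEq, Fin.mk.injEq,
      EmbeddingLike.apply_eq_iff_eq] at e
    exact Prod.ext (Fin.ext (by omega)) e.2
  · rw [e] at a; simp [el, ch] at a
  · simp [el, ch] at e
  · simp only [ch, idx, Prod.mk.injEq, Sum.inr.injEq, Sum.inl.injEq, Fin.succ_inj,
      EmbeddingLike.apply_eq_iff_eq, true_and] at e
    exact Prod.ext (Fin.ext (by omega)) e

noncomputable def ndE (φ : Nd H L ↪ Fin k) (p : El L k × El L k) : Option (Nd H L) := by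
  classical exact if h : ∃ v, Rel φ p v then some h.choose else none

lemma ndE_some : ndE φ p = some v ↔ Rel φ p v := by
  unfold ndE
  split_ifs with h
  · exact ⟨fun e => Option.some.inj e ▸ h.choose_spec, fun e => by rw [h.choose_spec.uniq e]⟩
  · exact ⟨fun e => by simp at e, fun e => absurd ⟨v, e⟩ h⟩

def G0 (φ : Nd H L ↪ Fin k) : El L k → El L k
  | Sum.inr (Sum.inl i) => ch (i + 1)
  | Sum.inr (Sum.inr a) => if a = φ (0, fun _ => false) then tgt else ch 0
  | _ => ch 0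

noncomputable def GE (φ : Nd H L ↪ Fin k) (p : El L k × El L k) : El L k :=
  match ndE φ p with
  | some v => el (φ v)
  | none => G0 φ p.1

lemma GE_rel (h : Rel φ p v) : GE φ p = el (φ v) := by
  unfold GE; rw [ndE_some.2 h]

lemma GE_none (h : ∀ v, ¬ Rel φ p v) : GE φ p = G0 φ p.1 := by
  unfold GE
  cases e : ndE φ p with
  | none => rfl
  | some v => exact absurd (ndE_some.1 e) (h v)

lemma GE_el {a : Fin k} (h : GE φ p = el a) : ∃ v, Rel φ p v ∧ a = φ v := by
  by_cases k : ∃ v, Rel φ p v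
  · obtain ⟨v, k⟩ := k
    rw [GE_rel k] at h
    exact ⟨v, k, by simpa [el] using h.symm⟩
  · rw [GE_none fun v h => k ⟨v, h⟩] at h
    unfold G0 at h
    split at h
    · simp [el, ch] at h
    · split_ifs at h <;> simp [el, ch, tgt] at h
    · simp [el, ch] at h

lemma GE_tgt (h : GE φ p = tgt) : p.1 = el (φ (0, fun _ => false)) := by
  by_cases k : ∃ v, Rel φ p v
  · obtain ⟨v, k⟩ := k
    rw [GE_rel k] at h; simp [el, tgt] at h
  · rw [GE_none fun v h => k ⟨v, h⟩] at h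
    unfold G0 at h
    split at h
    · simp [tgt, ch] at h
    · rename_i a e
      split_ifs at h with k
      · rw [e, k]; rfl
      · simp [ch, tgt] at h
    · simp [tgt, ch] at h

lemma GE_agree (h1 : ∀ u, p.1 = el (φ u) ↔ p.1 = el (φ' u))
    (h2 : ∀ u, p.2 = el (φ u) ↔ p.2 = el (φ' u)) (h3 : ∀ v, Rel φ' p v → φ v = φ' v) :
    GE φ p = GE φ' p := by
  have e : ∀ v, Rel φ p v ↔ Rel φ' p v := fun v => by unfold Rel; rw [h1, h2]
  by_cases k : ∃ v, Rel φ' p v
  · obtain ⟨v, k⟩ := k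
    rw [GE_rel k, GE_rel ((e v).2 k), h3 v k]
  · rw [GE_none fun v h => k ⟨v, h⟩, GE_none fun v h => k ⟨v, (e v).1 h⟩]
    have := h1 (0, fun _ => false)
    rcases hp : p.1 with a | a | a
    · rfl
    · rfl
    · rw [hp] at this
      simp only [el, Sum.inr.injEq] at this
      simp only [G0, this]

lemma closed_tgt (φ : Nd H L ↪ Fin k) (Z : El L k → Prop) (h0 : Z (ch 0))
    (hm : ∀ x y, Z x → Z y → Z (GE φ (x, y))) : Z tgt := by
  have h1 : ∀ i, Z (ch i) := by
    intro i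
    induction i using Fin.induction with
    | zero => exact h0
    | succ i ih =>
      have := hm _ _ ih h0
      rw [GE_none (by
        rintro v (⟨-, e, -⟩ | ⟨-, e⟩)
        · simp [el, ch] at e
        · simp only [ch, Prod.mk.injEq, Sum.inr.injEq, Sum.inl.injEq] at e
          exact Fin.succ_ne_zero _ e.2.symm)] at this
      simpa [G0, ch] using this
  have h2 : ∀ d, ∀ v : Nd H L, v.1.val + d = H → Z (el (φ v)) := by
    intro d
    induction d with
    | zero =>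
      intro v hv
      have := hm _ _ (h1 0) (h1 (idx v.2).succ)
      rwa [GE_rel (Or.inr ⟨hv, rfl⟩)] at this
    | succ d ih =>
      intro v hv
      have := hm _ _ (ih (lv H (v.1.val + 1), v.2) (by simp only [lv]; omega))
        (ih (lv H (v.1.val + 1), flip (v.1.val % L) v.2) (by simp only [lv]; omega))
      rwa [GE_rel (Or.inl ⟨by omega, rfl, rfl⟩)] at this
  have h3 := h2 H (0, fun _ => false) (by simp)
  have := hm _ _ h3 h3
  rw [GE_none (by
    rintro v (⟨k1, e, -⟩ | ⟨-, e⟩)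
    · simp only [el, lv, Prod.mk.injEq, Sum.inr.injEq, EmbeddingLike.apply_eq_iff_eq] at e
      have := congrArg Fin.val e.1
      simp at this; omega
    · simp [el, ch] at e)] at this
  simpa [G0, el] using this

lemma rel_child (h : Rel φ p v) (hc : BPar H L v c) : p.1 = el (φ c) ∨ p.2 = el (φ c) := by
  have h1 := hc.1
  have h2 := c.1.isLt
  rcases h with ⟨-, a, b⟩ | ⟨h3, -⟩
  · have e : lv H (v.1.val + 1) = c.1 := Fin.ext (by simp only [lv]; omega)
    rcases hc.2 with h4 | h4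
    · exact Or.inl (by rw [a, e, ← h4])
    · exact Or.inr (by rw [b, e, ← h4])
  · omega

lemma exists_emb {α : Type} [Fintype α] {a b : α} (hab : a ≠ b) {m : ℕ}
    (h : Fintype.card α ≤ m + 1) : ∃ ι : α ↪ Fin (m + 1), ι a = 0 ∧ ι b = Fin.last m := by
  obtain ⟨f⟩ := Function.Embedding.nonempty_of_card_le (β := Fin (m + 1)) (by simpa using h)
  have h1 : 1 < Fintype.card α := Fintype.one_lt_card_iff.2 ⟨a, b, hab⟩
  have h2 : (0 : Fin (m + 1)) ≠ Fin.last m := fun e => by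
    have := congrArg Fin.val e; simp at this; omega
  have h3 : Equiv.swap (f a) 0 (f b) ≠ 0 := fun e => by
    rw [Equiv.swap_apply_eq_iff, Equiv.swap_apply_right] at e
    exact hab (f.injective e).symm
  refine ⟨f.trans ((Equiv.swap (f a) 0).trans
    (Equiv.swap (Equiv.swap (f a) 0 (f b)) (Fin.last m))).toEmbedding, ?_, by simp⟩
  simp [Equiv.swap_apply_of_ne_of_ne h3.symm h2]

lemma Gen.cases {m : ℕ} {g : Fin (m + 1) × Fin (m + 1) → Fin (m + 1)} {x : Fin (m + 1)}
    (h : Gen g x) : x = 0 ∨ ∃ p : Fin (m + 1) × Fin (m + 1), Gen g p.1 ∧ x = g p := by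
  cases h with
  | one => exact Or.inl rfl
  | mul h1 _ => exact Or.inr ⟨_, h1, rfl⟩

theorem gen_lower {m L r : ℕ} (hr : 2 ^ L = 8 * r) (hm : 4 * (L + 1) * 4 ^ L ≤ m + 1)
    (B : GenBP (m + 1)) (hs : B.Solves) (ht : B.Thrifty) : 2 ^ r ≤ B.size := by
  classical
  have hr0 : 0 < r := by have := Nat.two_pow_pos L; omega
  set H := (r + 1) * L with hH
  set k := 13 * ((H + 1) * 2 ^ L) with hk
  obtain ⟨ι, i0, i1⟩ := exists_emb (α := El L k) (a := ch 0) (b := tgt) (m := m)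
    (by simp [ch, tgt]) (by
      refine le_trans ?_ hm
      have e : 4 ^ L = (8 * r) ^ 2 := by rw [← hr, ← pow_mul, mul_comm, pow_mul]; norm_num
      simp only [Fintype.card_sum, Fintype.card_unit, Fintype.card_fin, hH, hk, hr, e]
      have k1 : (r + 1) * L + 1 ≤ 2 * r * (L + 1) := by nlinarith
      have k2 : 13 * (((r + 1) * L + 1) * (8 * r)) ≤ 208 * ((L + 1) * r ^ 2) :=
        calc _ ≤ 13 * (2 * r * (L + 1) * (8 * r)) := by gcongr
          _ = _ := by ring
      have k3 : r ≤ (L + 1) * r ^ 2 := by nlinarith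
      nlinarith)
  have : Nonempty (El L k) := ⟨tgt⟩
  set ρ := Function.invFun ι with hρ
  have ρι : ∀ x, ρ (ι x) = x := Function.leftInverse_invFun ι.injective
  have ρ0 : ∀ a, ρ 0 ≠ el a := fun a => by rw [← i0, ρι]; simp [ch, el]
  set g : (Nd H L ↪ Fin k) → Fin (m + 1) × Fin (m + 1) → Fin (m + 1) :=
    fun φ p => ι (GE φ (ρ p.1, ρ p.2)) with hg
  set nd : (Nd H L ↪ Fin k) → Fin B.size → Option (Nd H L) :=
    fun φ q => ndE φ (ρ (B.label q).1, ρ (B.label q).2) with hnd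
  have gel : ∀ φ p a, ρ (g φ p) = el a → ∃ v, Rel φ (ρ p.1, ρ p.2) v ∧ a = φ v :=
    fun φ p a e => GE_el (by simpa only [hg, ρι] using e)
  have yes : ∀ φ, ∃ qs, B.Acc (g φ) qs ∧ qs.Nodup := by
    intro φ
    refine exists_nodup_acc ((hs _).2 ?_)
    rw [← i1]
    refine closed_tgt φ (fun x => Gen (g φ) (ι x)) (i0 ▸ Gen.one) ?_
    intro x y h1 h2
    have := Gen.mul h1 h2
    simpa only [hg, ρι] using this
  choose path p1 p2 using yes
  have kill : ∀ φ c, c ∉ Qd (nd φ) (path φ) → ∃ g', B.Acc g' (path φ) ∧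
      (∀ p, g' p = 0 ∨ g' p = g φ p) ∧ ∀ x, Gen g' x → ρ x ≠ el (φ c) := by
    intro φ c hc
    obtain ⟨s, h1, h2⟩ := p1 φ
    refine ⟨fun p => if Rel φ (ρ p.1, ρ p.2) c then 0 else g φ p,
      ⟨s, h1, h2.congr fun q hq => if_neg fun k => hc ⟨q, hq, ndE_some.2 k⟩⟩,
      fun p => ite_eq_or_eq _ _ _, fun x hx e => ?_⟩
    rcases hx.cases with rfl | ⟨p, -, rfl⟩
    · exact ρ0 _ e
    · split_ifs at e with k
      · exact ρ0 _ e
      · obtain ⟨v, k1, k2⟩ := gel φ p _ e
        exact k (φ.injective k2 ▸ k1)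
  have := core (Q := Fin B.size) (K := Fin k) hr (by simp [hk, hH]) nd path p2 (fun φ => ?_)
    (fun φ => ?_) ?_
  · simpa using this
  · refine ⟨fun _ => false, ?_⟩
    by_contra hc
    obtain ⟨g', k1, k2, k3⟩ := kill φ _ hc
    have ne : ι tgt ≠ 0 := fun e => by
      have := ι.injective (e.trans i0.symm); simp [ch, tgt] at this
    rcases ((hs _).1 ⟨_, k1⟩).cases with e | ⟨p, h1, e⟩
    · exact ne (i1.trans e)
    · rw [← i1] at e
      exact k3 _ h1 (GE_tgt (ι.injective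
        ((e.trans ((k2 p).resolve_left fun k => ne (e.trans k))).symm)))
  · refine Set.eq_empty_of_forall_notMem ?_
    rintro c ⟨hc, v, ⟨q, hq, e⟩, hv⟩
    obtain ⟨g', k1, -, k3⟩ := kill φ c hc
    exact (rel_child (ndE_some.1 e) hv).elim (k3 _ (ht _ _ k1 q hq).1) (k3 _ (ht _ _ k1 q hq).2)
  · rintro φ φ' s e J h1 h2 h3 h4 h5 h6 h7 c ⟨hc, v, ⟨q, hq, e0⟩, hv⟩
    have im : ∀ ψ x a, Gen (g ψ) x → ρ x = el a → ∃ u, a = ψ u := by
      intro ψ x a hx e
      rcases hx.cases with rfl | ⟨p, -, rfl⟩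
      · exact absurd e (ρ0 _)
      · obtain ⟨u, -, k⟩ := gel ψ p a e
        exact ⟨u, k⟩
    have both : ∀ x, Gen (g φ) x → Gen (g φ') x → ∀ u, ρ x = el (φ u) ↔ ρ x = el (φ' u) := by
      intro x k1 k2 u
      constructor <;> intro e
      · obtain ⟨u', k⟩ := im φ' x _ k2 e
        rw [e, k, h7 u u' k]
      · obtain ⟨u', k⟩ := im φ x _ k1 e
        rw [e, k, h7 u' u k.symm]
    set g' : Fin (m + 1) × Fin (m + 1) → Fin (m + 1) :=
      fun p => if ∃ q ∈ J, B.label q = p then g φ' p else g φ p with hg'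
    have a1 : B.Acc g' (path φ) := by
      obtain ⟨s0, k1, k2⟩ := p1 φ
      refine ⟨s0, k1, k2.congr fun q1 hq1 => ?_⟩
      simp only [hg']
      split_ifs with k
      · obtain ⟨q2, k3, k4⟩ := k
        have t1 := ht _ _ (p1 φ) q1 hq1
        have t2 := ht _ _ (p1 φ') q2 (h1.subset k3)
        rw [k4] at t2
        refine congrArg ι (GE_agree (both _ t1.1 t2.1) (both _ t1.2 t2.2) fun u hu => ?_).symm
        exact h6 u ⟨q2, k3, ndE_some.2 (by rw [k4]; exact hu)⟩
      · rfl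
    obtain ⟨R, r1, r2⟩ := acc_mix a1 (p1 φ') h1 h2 h3 h4 h5 fun p hp => if_pos ⟨p, hp, rfl⟩
    have fin : ∀ x, Gen g' x → ρ x = el (φ' c) → φ c = φ' c := by
      intro x hx e
      rcases hx.cases with rfl | ⟨p, -, rfl⟩
      · exact absurd e (ρ0 _)
      · simp only [hg'] at e
        split_ifs at e with k
        · obtain ⟨q2, k3, rfl⟩ := k
          obtain ⟨u, k1, k2⟩ := gel φ' _ _ e
          exact absurd ⟨q2, k3, ndE_some.2 (φ'.injective k2 ▸ k1)⟩ hc
        · obtain ⟨u, -, k2⟩ := gel φ _ _ e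
          rw [k2, h7 u c k2.symm]
    exact (rel_child (ndE_some.1 e0) hv).elim (fin _ (ht _ _ r1 q (r2 q hq)).1)
      (fin _ (ht _ _ r1 q (r2 q hq)).2)

/-- the choice of the parameters -/
lemma exists_param (n : ℕ) (hn : 1024 ≤ n) : ∃ L r : ℕ, 2 ^ L = 8 * r ∧
    4 * (L + 1) * 4 ^ L ≤ n ∧ √((n : ℝ) / Real.logb 2 n) / 32 ≤ r := by
  classical
  have hex : ∃ L, n < 4 * (L + 1) * 4 ^ L := ⟨n, by
    have := Nat.lt_pow_self (show 1 < 4 by norm_num) (n := n)
    nlinarith⟩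
  have h1 := Nat.find_spec hex
  have h2 : 3 < Nat.find hex := by
    rw [Nat.lt_find_iff]; intro j hj; interval_cases j <;> omega
  obtain ⟨t, ht⟩ : ∃ t, Nat.find hex = t + 4 := ⟨Nat.find hex - 4, by omega⟩
  have h3 := Nat.find_min hex (m := t + 3) (by omega)
  rw [ht] at h1
  refine ⟨t + 3, 2 ^ t, by ring, not_lt.1 h3, ?_⟩
  have h4 : 2 ^ (t + 5) ≤ n := by
    refine le_trans ?_ (not_lt.1 h3)
    have k1 : 2 ^ (t + 3) ≤ 4 ^ (t + 3) := Nat.pow_le_pow_left (by norm_num) _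
    calc 2 ^ (t + 5) = 4 * 1 * 2 ^ (t + 3) := by ring
      _ ≤ _ := Nat.mul_le_mul (Nat.mul_le_mul_left _ (by omega)) k1
  have h5 : ((t + 5 : ℕ) : ℝ) ≤ Real.logb 2 n := by
    rw [Real.le_logb_iff_rpow_le (by norm_num) (by positivity), Real.rpow_natCast]
    exact_mod_cast h4
  have h6 : (n : ℝ) / Real.logb 2 n ≤ (32 * 2 ^ t) ^ 2 := by
    have k0 : (0 : ℝ) < ((t + 5 : ℕ) : ℝ) := by positivity
    rw [div_le_iff₀ (by linarith)]
    have k1 : (n : ℝ) ≤ 4 * ((t + 5 : ℕ) : ℝ) * 4 ^ (t + 4) := by exact_mod_cast h1.le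
    have k3 : (4 : ℝ) ^ (t + 4) = 256 * (2 ^ t) ^ 2 := by
      rw [← pow_mul, mul_comm t 2, pow_mul]; ring
    have k4 : (0 : ℝ) < (2 ^ t) ^ 2 := by positivity
    rw [k3] at k1
    nlinarith
  have h7 := Real.sqrt_le_sqrt h6
  rw [Real.sqrt_sq (by positivity)] at h7
  push_cast
  linarith

end Pool.Agent.MP_47ff19_lc.H74
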