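import Pool.Agent.MP_47ff19_lc.H74.Gen

namespace Pool.Agent.Results.MP_47ff19_lc.GenLower

open Pool.Agent.MP_47ff19_lc.H74

/-- Every nondeterministic branching program that solves GEN on `n = m + 1 ≥ 1024` elements and is
semantic incremental, or merely queries only pairs of generated elements along accepting
computations, has at least `2 ^ (√(n / log₂ n) / 32)` inner states. -/
theorem result (m : ℕ) (hm : 1024 ≤ m + 1) (B : GenBP (m + 1)) (hs : B.Solves)
    (hi : B.Incremental ∨ B.Thrifty) :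
    (2 : ℝ) ^ (√(((m + 1 : ℕ) : ℝ) / Real.logb 2 ((m + 1 : ℕ) : ℝ)) / 32) ≤ (B.size : ℝ) := by
  obtain ⟨L, r, h1, h2, h3⟩ := exists_param (m + 1) hm
  have h4 := gen_lower h1 h2 B hs (hi.elim GenBP.Incremental.thrifty id)
  calc _ ≤ (2 : ℝ) ^ (r : ℝ) := Real.rpow_le_rpow_of_exponent_le (by norm_num) h3
    _ = ((2 ^ r : ℕ) : ℝ) := by rw [Real.rpow_natCast]; norm_num
    _ ≤ _ := by exact_mod_cast h4

end Pool.Agent.Results.MP_47ff19_lc.GenLower
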